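import Pool.Agent.Work.MP_2738db_nt_A.Interface

set_option autoImplicit false

namespace Pool.Agent.Work.MP_2738db_nt_A.helper83

open Finset NumberField Pool.Agent.Work.MP_2738db_nt_A

/-- little Fermat modulo a prime ideal -/
theorem pow_norm_sub_one_mem {K : Type} [Field K] [NumberField K] (P : Ideal (𝓞 K))
    (hP : P.IsPrime) (hP0 : P ≠ ⊥) (y : 𝓞 K) (hy : y ∉ P) :
    y ^ (Ideal.absNorm P - 1) - 1 ∈ P := by
  have : Finite (𝓞 K ⧸ P) := Ideal.finiteQuotientOfFreeOfNeBot P hP0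
  have := hP.isMaximal hP0
  letI := Ideal.Quotient.field P
  letI := Fintype.ofFinite (𝓞 K ⧸ P)
  have h1 : Ideal.absNorm P = Fintype.card (𝓞 K ⧸ P) := by
    rw [Ideal.absNorm_apply, Submodule.cardQuot_apply, Nat.card_eq_fintype_card]
  have h2 : (Ideal.Quotient.mk P y) ≠ 0 := by
    rw [Ne, Ideal.Quotient.eq_zero_iff_mem]; exact hy
  have h3 := FiniteField.pow_card_sub_one_eq_one (Ideal.Quotient.mk P y) h2
  rw [← Ideal.Quotient.eq_zero_iff_mem, map_sub, map_pow, map_one, h1, h3, sub_self]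

theorem two_le_norm {K : Type} [Field K] [NumberField K] (P : Ideal (𝓞 K))
    (hP : P.IsPrime) (hP0 : P ≠ ⊥) : 2 ≤ Ideal.absNorm P := by
  have h0 : Ideal.absNorm P ≠ 0 := by
    rw [Ne, Ideal.absNorm_eq_zero_iff]; exact hP0
  have h1 : Ideal.absNorm P ≠ 1 := by
    rw [Ne, Ideal.absNorm_eq_one_iff]; exact hP.ne_top
  omega

theorem HB_pow {K : Type} [Field K] [NumberField K] {y : 𝓞 K} {A : ℝ} (h : HB K y A) (n : ℕ) :
    HB K (y ^ n) (n * A) := by
  intro v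
  have h1 : ((y ^ n : 𝓞 K) : K) = (y : K) ^ n := by push_cast; rfl
  rw [h1, map_pow, Real.exp_nat_mul]
  exact pow_le_pow_left₀ (apply_nonneg v _) (h v) n

theorem HB_mul {K : Type} [Field K] [NumberField K] {x y : 𝓞 K} {A B : ℝ} (h : HB K x A)
    (h' : HB K y B) : HB K (x * y) (A + B) := by
  intro v
  have h1 : ((x * y : 𝓞 K) : K) = (x : K) * (y : K) := by push_cast; rfl
  rw [h1, map_mul, Real.exp_add]
  exact mul_le_mul (h v) (h' v) (apply_nonneg v _) (Real.exp_pos _).le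

theorem HB_mono {K : Type} [Field K] [NumberField K] {x : 𝓞 K} {A B : ℝ} (h : HB K x A)
    (h' : A ≤ B) : HB K x B := fun v => (h v).trans (Real.exp_le_exp.mpr h')

/-- the nondegenerate application of `Tlk`, with `G`-th powers -/
theorem core (hTlk : Stmt_Tlk) (K : Type) [Field K] [NumberField K] (P : Ideal (𝓞 K))
    (x₁ x₂ y₁ y₂ : 𝓞 K) (ℓ M : ℕ) (A B D Q : ℝ) (hP : P.IsPrime) (hP0 : P ≠ ⊥)
    (hx₁ : x₁ ∉ P) (hx₂ : x₂ ∉ P) (hy₁ : y₁ ∉ P) (hy₂ : y₂ ∉ P)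
    (hnd : ∀ n : ℕ, 1 ≤ n → x₁ ^ n ≠ x₂ ^ n)
    (hM : x₁ * y₁ ^ ℓ - x₂ * y₂ ^ ℓ ∈ P ^ M)
    (hD : 1 ≤ D) (hKD : (Module.finrank ℚ K : ℝ) ≤ D) (hQ : (Ideal.absNorm P : ℝ) ≤ Q)
    (hA : 1 ≤ A) (hB : 1 ≤ B) (hyA₁ : HB K y₁ A) (hyA₂ : HB K y₂ A) (hxB₁ : HB K x₁ B)
    (hxB₂ : HB K x₂ B) (hbig : 6200 * D ^ 2 * (Q * B) * (1 + Real.log ℓ) ≤ ℓ) :
    (M : ℝ) ≤ 4 * 10 ^ 7 * D ^ 4 * (Q * A) * (Q * B) * (1 + Real.log ℓ) ^ 2 := by
  set G := Ideal.absNorm P - 1 with hG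
  have h2 := two_le_norm P hP hP0
  have hG1 : 1 ≤ G := by omega
  have hGQ : (G : ℝ) ≤ Q := by
    have : (G : ℝ) ≤ (Ideal.absNorm P : ℝ) := by exact_mod_cast Nat.sub_le _ _
    linarith
  have hQ2 : 2 ≤ Q := by
    have : (2 : ℝ) ≤ (Ideal.absNorm P : ℝ) := by exact_mod_cast h2
    linarith
  have hx₁0 : x₁ ≠ 0 := fun h => hx₁ (h ▸ P.zero_mem)
  have hx₂0 : x₂ ≠ 0 := fun h => hx₂ (h ▸ P.zero_mem)
  have npow : ∀ (x : 𝓞 K) (n : ℕ), x ∉ P → x ^ n ∉ P := fun x n hx h => hx (hP.mem_of_pow_mem n h)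
  refine hTlk K P (x₁ ^ G) (x₂ ^ G) (y₁ ^ G) (y₂ ^ G) ℓ M (Q * A) (Q * B) D hP hP0
    (npow _ _ hx₁) (npow _ _ hx₂) (npow _ _ hy₁) (npow _ _ hy₂) ?_ ?_ ?_ hD hKD ?_ ?_ ?_ ?_ ?_ ?_
    hbig
  · have e : y₁ ^ G - y₂ ^ G = (y₁ ^ G - 1) - (y₂ ^ G - 1) := by ring
    rw [e]
    exact P.sub_mem (pow_norm_sub_one_mem P hP hP0 y₁ hy₁) (pow_norm_sub_one_mem P hP hP0 y₂ hy₂)
  · intro i j hij h
    have hn := hnd (G * (j - i)) (Nat.mul_pos hG1 (by omega))
    apply hn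
    have e1 : G * j = G * i + G * (j - i) := by rw [← Nat.mul_add]; congr 1; omega
    rw [← pow_mul, ← pow_mul, ← pow_mul, ← pow_mul, e1, pow_add, pow_add] at h
    have h3 : (x₁ ^ (G * i) * x₂ ^ (G * i)) * x₂ ^ (G * (j - i)) =
        (x₁ ^ (G * i) * x₂ ^ (G * i)) * x₁ ^ (G * (j - i)) := by linear_combination h
    have h4 : x₁ ^ (G * i) * x₂ ^ (G * i) ≠ 0 := mul_ne_zero (pow_ne_zero _ hx₁0) (pow_ne_zero _ hx₂0)
    exact (mul_left_cancel₀ h4 h3).symm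
  · have e : x₁ ^ G * (y₁ ^ G) ^ ℓ - x₂ ^ G * (y₂ ^ G) ^ ℓ =
        (x₁ * y₁ ^ ℓ) ^ G - (x₂ * y₂ ^ ℓ) ^ G := by
      rw [mul_pow, mul_pow, ← pow_mul, ← pow_mul, ← pow_mul, ← pow_mul, Nat.mul_comm G ℓ]
    rw [e]
    exact Ideal.mem_of_dvd _ (sub_dvd_pow_sub_pow _ _ G) hM
  · nlinarith
  · nlinarith
  · exact HB_mono (HB_pow hyA₁ G) (mul_le_mul_of_nonneg_right hGQ (by linarith))
  · exact HB_mono (HB_pow hyA₂ G) (mul_le_mul_of_nonneg_right hGQ (by linarith))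
  · exact HB_mono (HB_pow hxB₁ G) (mul_le_mul_of_nonneg_right hGQ (by linarith))
  · exact HB_mono (HB_pow hxB₂ G) (mul_le_mul_of_nonneg_right hGQ (by linarith))

theorem stmt_TLG (hTlk : Stmt_Tlk) (hNrm : Stmt_Nrm) : Stmt_Tlg := by
  intro K _ _ P x₁ x₂ y₁ y₂ r M A B D Q hP hP0 hx₁ hx₂ hy₁ hy₂ hne hM hD hKD hQ hA hB hyA₁ hyA₂
    hxB₁ hxB₂ hbig
  have h2 := two_le_norm P hP hP0
  have hQ2 : 2 ≤ Q := by
    have : (2 : ℝ) ≤ (Ideal.absNorm P : ℝ) := by exact_mod_cast h2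
    linarith
  have hx₁0 : x₁ ≠ 0 := fun h => hx₁ (h ▸ P.zero_mem)
  have hx₂0 : x₂ ≠ 0 := fun h => hx₂ (h ▸ P.zero_mem)
  have hy₁0 : y₁ ≠ 0 := fun h => hy₁ (h ▸ P.zero_mem)
  have hy₂0 : y₂ ≠ 0 := fun h => hy₂ (h ▸ P.zero_mem)
  -- `r` is large
  have hlog0 : 0 ≤ Real.log r := Real.log_natCast_nonneg r
  have hD2 : 1 ≤ D ^ 2 := one_le_pow₀ hD
  have hQAB : 4 ≤ Q * (A + B) := by nlinarith
  have hfac : 1 ≤ D ^ 2 * (Q * (A + B)) * (1 + Real.log r) := by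
    have h1 : 1 ≤ D ^ 2 * (Q * (A + B)) := by nlinarith
    nlinarith
  have hrbig : (10 : ℝ) ^ 4 ≤ r := by
    have e : (10 : ℝ) ^ 4 * D ^ 2 * Q * (A + B) * (1 + Real.log r) =
      10 ^ 4 * (D ^ 2 * (Q * (A + B)) * (1 + Real.log r)) := by ring
    rw [e] at hbig
    nlinarith
  have hr1 : 1 ≤ r := by
    have : (1 : ℝ) ≤ r := by linarith
    exact_mod_cast this
  have hD4 : 1 ≤ D ^ 4 := one_le_pow₀ hD
  have hL2 : 1 ≤ (1 + Real.log r) ^ 2 := one_le_pow₀ (by linarith)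
  by_cases hx : ∀ n : ℕ, 1 ≤ n → x₁ ^ n ≠ x₂ ^ n
  · -- case 1
    have h := core hTlk K P x₁ x₂ y₁ y₂ r M A B D Q hP hP0 hx₁ hx₂ hy₁ hy₂ hx hM hD hKD hQ hA hB
      hyA₁ hyA₂ hxB₁ hxB₂ (by
        refine le_trans ?_ hbig
        have e : (10 : ℝ) ^ 4 * D ^ 2 * Q * (A + B) * (1 + Real.log r) -
          6200 * D ^ 2 * (Q * B) * (1 + Real.log r) =
          D ^ 2 * Q * (1 + Real.log r) * (10 ^ 4 * A + 3800 * B) := by ring
        have : 0 ≤ D ^ 2 * Q * (1 + Real.log r) * (10 ^ 4 * A + 3800 * B) := by positivity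
        linarith)
    refine h.trans ?_
    have e : 10 ^ 8 * D ^ 4 * Q ^ 2 * A * (A + B) * (1 + Real.log r) ^ 2 -
      4 * 10 ^ 7 * D ^ 4 * (Q * A) * (Q * B) * (1 + Real.log r) ^ 2 =
      D ^ 4 * Q ^ 2 * A * (1 + Real.log r) ^ 2 * (10 ^ 8 * A + 6 * 10 ^ 7 * B) := by ring
    have : 0 ≤ D ^ 4 * Q ^ 2 * A * (1 + Real.log r) ^ 2 * (10 ^ 8 * A + 6 * 10 ^ 7 * B) := by
      positivity
    linarith
  · push Not at hx
    obtain ⟨a, ha1, ha⟩ := hx
    by_cases hy : ∀ n : ℕ, 1 ≤ n → y₁ ^ n ≠ y₂ ^ n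
    · -- case 2
      obtain ⟨ℓ, rfl⟩ : ∃ ℓ, r = ℓ + 1 := ⟨r - 1, by omega⟩
      have hℓ0 : (0 : ℝ) < ℓ := by
        have : (10 : ℝ) ^ 4 ≤ ℓ + 1 := by exact_mod_cast hrbig
        linarith
      have hlogle : Real.log ℓ ≤ Real.log ((ℓ + 1 : ℕ) : ℝ) := by
        apply Real.log_le_log hℓ0
        push_cast; linarith
      have hlogℓ : 0 ≤ Real.log ℓ := Real.log_natCast_nonneg ℓ
      have h := core hTlk K P (x₁ * y₁) (x₂ * y₂) y₁ y₂ ℓ M A (A + B) D Q hP hP0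
        (fun h => (hP.mem_or_mem h).elim hx₁ hy₁) (fun h => (hP.mem_or_mem h).elim hx₂ hy₂)
        hy₁ hy₂ (by
          intro n hn h
          have h1 : (x₁ * y₁) ^ (n * a) = (x₂ * y₂) ^ (n * a) := by rw [pow_mul, pow_mul, h]
          have h3 : x₁ ^ (n * a) = x₂ ^ (n * a) := by
            rw [Nat.mul_comm, pow_mul, pow_mul, ha]
          rw [mul_pow, mul_pow, h3] at h1
          exact hy (n * a) (Nat.mul_pos hn ha1)
            (mul_left_cancel₀ (pow_ne_zero _ hx₂0) h1)) (by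
          have e : x₁ * y₁ * y₁ ^ ℓ - x₂ * y₂ * y₂ ^ ℓ = x₁ * y₁ ^ (ℓ + 1) - x₂ * y₂ ^ (ℓ + 1) := by
            ring
          rw [e]; exact hM) hD hKD hQ hA (by linarith) hyA₁ hyA₂
        (by rw [add_comm]; exact HB_mul hxB₁ hyA₁) (by rw [add_comm]; exact HB_mul hxB₂ hyA₂) (by
          have h5 : 6200 * D ^ 2 * (Q * (A + B)) * (1 + Real.log ℓ) ≤
              6200 * D ^ 2 * (Q * (A + B)) * (1 + Real.log ((ℓ + 1 : ℕ) : ℝ)) := by
            apply mul_le_mul_of_nonneg_left (by linarith)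
            positivity
          have h6 : 6200 * D ^ 2 * (Q * (A + B)) * (1 + Real.log ((ℓ + 1 : ℕ) : ℝ)) =
            (62 / 100) * (10 ^ 4 * D ^ 2 * Q * (A + B) * (1 + Real.log ((ℓ + 1 : ℕ) : ℝ))) := by
            ring
          have h7 : ((ℓ + 1 : ℕ) : ℝ) = ℓ + 1 := by push_cast; ring
          rw [h6] at h5
          rw [h7] at hbig hrbig h5
          linarith)
      refine h.trans ?_
      have h8 : (1 + Real.log ℓ) ^ 2 ≤ (1 + Real.log ((ℓ + 1 : ℕ) : ℝ)) ^ 2 := by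
        apply pow_le_pow_left₀ (by linarith); linarith
      calc 4 * 10 ^ 7 * D ^ 4 * (Q * A) * (Q * (A + B)) * (1 + Real.log ℓ) ^ 2
          ≤ 10 ^ 8 * D ^ 4 * (Q * A) * (Q * (A + B)) * (1 + Real.log ℓ) ^ 2 := by
            have : 0 ≤ D ^ 4 * (Q * A) * (Q * (A + B)) * (1 + Real.log ℓ) ^ 2 := by positivity
            nlinarith
        _ ≤ 10 ^ 8 * D ^ 4 * (Q * A) * (Q * (A + B)) * (1 + Real.log ((ℓ + 1 : ℕ) : ℝ)) ^ 2 := by
            apply mul_le_mul_of_nonneg_left h8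
            positivity
        _ = _ := by ring
    · -- case 3
      push Not at hy
      obtain ⟨b, hb1, hb⟩ := hy
      have hMD : (M : ℝ) ≤ D := by
        have hx₂K : (x₂ : K) ≠ 0 := by
          intro h; exact hx₂0 (RingOfIntegers.coe_eq_zero_iff.mp h)
        have hy₂K : (y₂ : K) ≠ 0 := by
          intro h; exact hy₂0 (RingOfIntegers.coe_eq_zero_iff.mp h)
        have haK : (x₁ : K) ^ a = (x₂ : K) ^ a := by exact_mod_cast congrArg (fun z : 𝓞 K => (z : K)) ha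
        have hbK : (y₁ : K) ^ b = (y₂ : K) ^ b := by exact_mod_cast congrArg (fun z : 𝓞 K => (z : K)) hb
        set w : K := (x₁ * y₁ ^ r : K) / (x₂ * y₂ ^ r : K) with hw
        have hden : ((x₂ : K) * (y₂ : K) ^ r) ≠ 0 := mul_ne_zero hx₂K (pow_ne_zero _ hy₂K)
        have hwpow : w ^ (a * b) = 1 := by
          rw [hw, div_pow, div_eq_one_iff_eq (pow_ne_zero _ hden), mul_pow, mul_pow]
          have e1 : (x₁ : K) ^ (a * b) = (x₂ : K) ^ (a * b) := by rw [pow_mul, pow_mul, haK]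
          have e2 : ((y₁ : K) ^ r) ^ (a * b) = ((y₂ : K) ^ r) ^ (a * b) := by
            rw [← pow_mul, ← pow_mul]
            have h15 : r * (a * b) = b * (r * a) := by ring
            rw [h15, pow_mul _ b, pow_mul _ b, hbK]
          rw [e1, e2]
        have hab : 0 < a * b := Nat.mul_pos ha1 hb1
        have hwint : IsIntegral ℤ w := by
          apply IsIntegral.of_pow hab
          rw [hwpow]; exact isIntegral_one
        set w' : 𝓞 K := ⟨w, hwint⟩ with hw'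
        have hw'K : (w' : K) = w := rfl
        have hmul : x₂ * y₂ ^ r * w' = x₁ * y₁ ^ r := by
          apply RingOfIntegers.coe_injective
          have e0 : ((x₂ * y₂ ^ r * w' : 𝓞 K) : K) = (x₂ : K) * (y₂ : K) ^ r * w := by
            push_cast; rfl
          have e1 : ((x₁ * y₁ ^ r : 𝓞 K) : K) = (x₁ : K) * (y₁ : K) ^ r := by push_cast; rfl
          change ((x₂ * y₂ ^ r * w' : 𝓞 K) : K) = ((x₁ * y₁ ^ r : 𝓞 K) : K)
          rw [e0, e1, hw, mul_div_cancel₀ _ hden]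
        have hmem : (x₂ * y₂ ^ r) * (w' - 1) ∈ P ^ M := by
          have e : (x₂ * y₂ ^ r) * (w' - 1) = x₁ * y₁ ^ r - x₂ * y₂ ^ r := by
            rw [mul_sub, hmul, mul_one]
          rw [e]; exact hM
        have := hP
        have hmem2 : w' - 1 ∈ P ^ M := by
          rcases Ideal.IsPrime.mul_mem_pow P hmem with h | h
          · exfalso
            rcases hP.mem_or_mem h with h | h
            · exact hx₂ h
            · exact hy₂ (hP.mem_of_pow_mem r h)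
          · exact h
        have hne1 : w' - 1 ≠ 0 := by
          intro h
          apply hne
          have : w' = 1 := sub_eq_zero.mp h
          rw [← hmul, this, mul_one]
        have hHB : HB K (w' - 1) (Real.log 2) := by
          intro v
          rw [Real.exp_log (by norm_num)]
          have h1 : ((w' - 1 : 𝓞 K) : K) = w - 1 := by push_cast; rfl
          rw [h1]
          have h3 : v w = 1 := by
            have h4 : (v w) ^ (a * b) = 1 := by rw [← map_pow, hwpow, map_one]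
            exact (pow_eq_one_iff_of_nonneg (apply_nonneg v _) hab.ne').mp h4
          calc v (w - 1) ≤ v w + v 1 := by
                rw [← InfinitePlace.norm_embedding_eq v (w - 1), ← InfinitePlace.norm_embedding_eq v w,
                  ← InfinitePlace.norm_embedding_eq v 1, map_sub]
                exact norm_sub_le _ _
            _ = 2 := by rw [h3, map_one]; norm_num
        have h5 := hNrm K P M (w' - 1) (Real.log 2) hP hP0 hne1 hmem2 hHB
        have h6 : Real.log 2 ≤ Real.log (Ideal.absNorm P) := by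
          apply Real.log_le_log (by norm_num)
          exact_mod_cast h2
        have h7 : 0 < Real.log 2 := Real.log_pos (by norm_num)
        have h8 : (M : ℝ) * Real.log 2 ≤ D * Real.log 2 := by
          calc (M : ℝ) * Real.log 2 ≤ M * Real.log (Ideal.absNorm P) :=
                mul_le_mul_of_nonneg_left h6 (Nat.cast_nonneg _)
            _ ≤ Module.finrank ℚ K * Real.log 2 := h5
            _ ≤ D * Real.log 2 := mul_le_mul_of_nonneg_right hKD h7.le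
        exact le_of_mul_le_mul_right h8 h7
      refine hMD.trans ?_
      have h9 : D ≤ D ^ 4 := le_self_pow₀ hD (by norm_num)
      have h10 : 1 ≤ 10 ^ 8 * Q ^ 2 * A * (A + B) * (1 + Real.log r) ^ 2 := by
        have h11 : 1 ≤ Q ^ 2 := one_le_pow₀ (by linarith)
        have h12 : 1 ≤ A * (A + B) := by nlinarith
        have h13 : 1 ≤ Q ^ 2 * (A * (A + B)) := by nlinarith
        have h14 : 1 ≤ Q ^ 2 * (A * (A + B)) * (1 + Real.log r) ^ 2 := by nlinarith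
        have e : 10 ^ 8 * Q ^ 2 * A * (A + B) * (1 + Real.log r) ^ 2 =
          10 ^ 8 * (Q ^ 2 * (A * (A + B)) * (1 + Real.log r) ^ 2) := by ring
        rw [e]; linarith
      have e : 10 ^ 8 * D ^ 4 * Q ^ 2 * A * (A + B) * (1 + Real.log r) ^ 2 =
        D ^ 4 * (10 ^ 8 * Q ^ 2 * A * (A + B) * (1 + Real.log r) ^ 2) := by ring
      rw [e]
      nlinarith [h10, h9]

end Pool.Agent.Work.MP_2738db_nt_A.helper83
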